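import Pool.Agent.Lib.MP_0d9445_pr.Defs
import Pool.Agent.Lib.MP_0d9445_pr.Walk.Defs

/-! Voronoi cells and the Liouville clock. -/

open MeasureTheory ProbabilityTheory Set Filter Topology
open scoped NNReal ENNReal

noncomputable section

namespace Pool.Agent.Lib.MP_0d9445_pr

open BM

/-- The Voronoi cells of the point set `Y` for the metric `d`. -/
def vor (d : Met) (Y : Set ℂ) : Walk.Cells := ⟨Y, fun x => {w | ∀ y ∈ Y, d (w, x) ≤ d (w, y)}⟩

/-- `A` is a positive continuous additive functional of planar Brownian motion (for every starting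
point) whose Revuz measure with respect to Lebesgue measure is `μ`. -/
structure PCAF (W : Measure Path) (μ : Measure ℂ) (A : Path → StieltjesFunction ℝ≥0) : Prop where
  meas : ∀ t, Measurable fun ω => A ω t
  adapted : ∀ x t, AEStronglyMeasurable[past t] (fun ω => A ω t) (Px W x)
  additive : ∃ L : Set Path, MeasurableSet L ∧ (∀ x, ∀ᵐ ω ∂Px W x, ω ∈ L) ∧ ∀ ω ∈ L,
    A ω 0 = 0 ∧ Continuous (A ω) ∧ ∀ s t, A ω (s + t) = A ω s + A (shift s ω) t
  revuz : ∀ f : ℂ → ℝ≥0∞, Measurable f →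
    ∫⁻ x, ∫⁻ ω, ∫⁻ t in Iic 1, f (ω t) ∂(A ω).measure ∂Px W x = ∫⁻ y, f y ∂μ

end Pool.Agent.Lib.MP_0d9445_pr
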