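import Pool.Agent.Lib.MP_0d9445_pr.Defs
import Pool.Agent.Lib.MP_0d9445_pr.CR.Defs

/-! The layer decomposition of the whole-plane GFF (interface of module LA). -/

open MeasureTheory ProbabilityTheory Set Filter Topology Real
open scoped NNReal ENNReal

noncomputable section

namespace Pool.Agent.Lib.MP_0d9445_pr

/-- the constant function -/
abbrev cst (c : ℝ) : Fn := ContinuousMap.const ℂ c

/-- `g (a · + b)` -/
def resc (a b : ℂ) (g : Fn) : Fn := ⟨fun z => g (a * z + b), by fun_prop⟩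

/-- `g (a · + b) + Q log |a|` -/
def res (Q : ℝ) (a b : ℂ) (g : Fn) : Fn := resc a b g + cst (Q * log ‖a‖)

/-- `g (a · + b) - g b` -/
def shape (a b : ℂ) (g : Fn) : Fn := resc a b g - cst (g b)

/-- the dyadic similarity ratios `2 ^ (-k) i ^ j` -/
def dy (k : ℤ) (j : ℕ) : ℂ := (2 : ℂ) ^ (-k) * Complex.I ^ j

/-- covariance of the layer `j` -/
def layCov (k : ℝ → ℝ) (j : ℤ) (x y : ℂ) : ℝ :=
  ∫ v in (2 : ℝ) ^ j..(2 : ℝ) ^ (j + 1), k (v * ‖x - y‖) / v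

/-- Independent smooth layers `eta j`, the fine fields `H n` (sum of the layers `j ≥ n`) and the
infrared part `ginf` (sum over `j < 0` of `eta j - eta j 0`). -/
structure Layers where
  Ω : Type
  [mΩ : MeasurableSpace Ω]
  P : Measure Ω
  [prob : IsProbabilityMeasure P]
  eta : ℤ → Ω → Fn
  H : ℤ → Ω → Field
  ginf : Ω → Fn
  meas_eta : ∀ j, Measurable (eta j)
  meas_H : ∀ n, Measurable (H n)
  meas_ginf : Measurable ginf
  step : ∀ n, ∀ᵐ ω ∂P, H n ω = addFn (H (n + 1) ω) (eta n ω)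
  iid : iIndepFun eta P
  indep : ∀ n : ℤ, IndepFun (fun ω (j : Iio n) => eta j ω) (H n) P
  indep_ginf : ∀ n : ℕ, IndepFun (fun ω => (ginf ω, fun j : Iio (n : ℤ) => eta j ω)) (H n) P
  indep_ginf_eta : IndepFun ginf (fun ω (j : ℕ) => eta j ω) P
  ginf_zero : ∀ ω, ginf ω 0 = 0
  ginf_lim : ∀ᵐ ω ∂P, Tendsto
    (fun N : ℕ => ∑ j ∈ Finset.Ico (-(N : ℤ)) 0, (eta j ω - cst (eta j ω 0))) atTop (𝓝 (ginf ω))
  range : ∀ (n : ℤ) (ι : Type) (A : ι → Set ℂ),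
    (∀ i j, i ≠ j → ∀ x ∈ A i, ∀ y ∈ A j, (2 : ℝ) ^ (-n) / 2 ≤ ‖x - y‖) →
    iIndep (fun i => sigmaOn (H n) (A i)) P
  cov : ∀ (k : ℤ) (j : ℕ) (b : ℂ),
    P.map (fun ω => (fun n => resc (dy k j) b (eta (n + k) ω),
      fun n => affine 0 (dy k j) b (H (n + k) ω))) =
    P.map (fun ω => (fun n => eta n ω, fun n => H n ω))
  shape_law : ∀ (n j : ℕ) (b : ℂ),
    P.map (fun ω => shape (dy n j) b (ginf ω + ∑ i ∈ Finset.range n, eta i ω)) = P.map ginf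
  gauss : ∀ j y, P.map (fun ω => eta j ω y) = gaussianReal 0 (log 2).toNNReal
  lipexp : ∀ θ ρ : ℝ,
    ∫⁻ ω, CR.ex (ENNReal.ofReal θ * CR.lip (eta 0 ω) (Metric.ball 0 ρ)) ∂P < ∞
  lipexp_ginf : ∀ θ ρ : ℝ,
    ∫⁻ ω, CR.ex (ENNReal.ofReal θ * CR.lip (ginf ω) (Metric.ball 0 ρ)) ∂P < ∞
  gff : IsGFF (fun ω => addFn (H 0 ω) (ginf ω)) P
  k : ℝ → ℝ
  k_smooth : ContDiff ℝ 1 k
  k_zero : k 0 = 1
  k_supp : ∀ s, 1 / 2 ≤ s → k s = 0
  k_le : ∀ s, |k s| ≤ 1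
  k_nonneg : ∀ s, 0 ≤ s → 0 ≤ k s
  gproc : IsGaussianProcess (Sum.elim (fun (p : ℤ × ℂ) ω => eta p.1 ω p.2)
    (fun (p : ℤ × (ℝ × ℂ)) ω => H p.1 ω p.2)) P
  mean_eta : ∀ j x, ∫ ω, eta j ω x ∂P = 0
  mean_H : ∀ n p, ∫ ω, H n ω p ∂P = 0
  cov_eta : ∀ i j x y, cov[fun ω => eta i ω x, fun ω => eta j ω y; P] =
    if i = j then layCov k j x y else 0
  cov_H_eta : ∀ n p j y, cov[fun ω => H n ω p, fun ω => eta j ω y; P] =
    if n ≤ j then avg (fun x => layCov k j x y) p else 0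
  cov_H : ∀ p q, HasSum (fun j : ℕ => avg (fun x => avg (fun y => layCov k j x y) q) p)
    cov[fun ω => H 0 ω p, fun ω => H 0 ω q; P]
  var_H : ∃ C : ℝ, ∀ t, 0 ≤ t → ∀ z, |Var[fun ω => H 0 ω (t, z); P] - t| ≤ C

attribute [instance] Layers.mΩ Layers.prob

end Pool.Agent.Lib.MP_0d9445_pr
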