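import Mathlib
import Pool.Agent.Lib.MP_0d9445_pr.Met.Defs

/-!
Gaussian free fields, the Liouville quantum gravity metric and area measure, the quantum cone and
the quantum sphere, Poisson points on them.
-/

open MeasureTheory ProbabilityTheory Set Filter Topology Real LQ.Met
open scoped NNReal ENNReal

noncomputable section

namespace Pool.Agent.Lib.MP_0d9445_pr

/-- Spaces of continuous maps carry the Borel sigma-algebra of the compact-open topology. -/
instance cmMS {X Y : Type*} [TopologicalSpace X] [TopologicalSpace Y] :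
    MeasurableSpace C(X, Y) := borel _

instance cmBorel {X Y : Type*} [TopologicalSpace X] [TopologicalSpace Y] :
    BorelSpace C(X, Y) := ⟨rfl⟩

/-- A field is recorded by its circle averages: `H (t, z)` is the average over the circle of
radius `exp (-t)` around `z`. -/
abbrev Field : Type := C(ℝ × ℂ, ℝ)

/-- continuous functions on the plane -/
abbrev Fn : Type := C(ℂ, ℝ)

/-- continuous functions of two points of the plane (candidates for a metric) -/
abbrev Met : Type := C(ℂ × ℂ, ℝ)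

/-- the average of `f` over the circle of radius `exp (-p.1)` around `p.2` -/
def avg (f : ℂ → ℝ) (p : ℝ × ℂ) : ℝ := circleAverage f p.2 (exp (-p.1))

theorem continuous_avg (f : Fn) : Continuous (avg f) := by
  have : Continuous fun p : ℝ × ℂ => ∫ θ in (0 : ℝ)..2 * π, f (circleMap p.2 (exp (-p.1)) θ) := by
    unfold circleMap
    exact intervalIntegral.continuous_parametric_intervalIntegral_of_continuous' (by fun_prop) _ _
  exact this.const_smul (2 * π)⁻¹

/-- the field `H + f` -/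
def addFn (H : Field) (f : Fn) : Field := H + ⟨avg f, continuous_avg f⟩

/-- the field `H (a · + b) + Q log |a|` -/
def affine (Q : ℝ) (a b : ℂ) (H : Field) : Field :=
  ⟨fun p => H (p.1 - log ‖a‖, a * p.2 + b) + Q * log ‖a‖, by fun_prop⟩

/-- the covariance of circle averages for the kernel `log (max |x| 1 * max |y| 1 / |x - y|)` -/
def gffCov (p q : ℝ × ℂ) : ℝ :=
  avg (fun x => avg (fun y => log (max ‖x‖ 1) + log (max ‖y‖ 1) - log ‖x - y‖) q) p

variable {Ω : Type} [MeasurableSpace Ω]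

/-- `h` is a whole-plane Gaussian free field (with an arbitrary random additive constant):
`h` minus its average over the unit circle is a centred Gaussian process with covariance
`gffCov`. -/
structure IsGFF (h : Ω → Field) (P : Measure Ω) : Prop where
  meas : Measurable h
  gauss : IsGaussianProcess (fun p ω => h ω p - h ω 0) P
  mean : ∀ p, ∫ ω, (h ω p - h ω 0) ∂P = 0
  cov : ∀ p q, ∫ ω, (h ω p - h ω 0) * (h ω q - h ω 0) ∂P = gffCov p q

/-- `h` is a whole-plane GFF plus a random continuous function. -/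
def IsGFFplus (h : Ω → Field) (P : Measure Ω) : Prop :=
  Measurable h ∧ ∃ f : Ω → Fn, Measurable f ∧ IsGFF (fun ω => addFn (h ω) (-f ω)) P

/-- the sigma-algebra generated by the averages of `h` over the circles whose closed disc lies
in `U` -/
@[reducible] def sigmaOn (h : Ω → Field) (U : Set ℂ) : MeasurableSpace Ω :=
  ⨆ (p : ℝ × ℂ) (_ : Metric.closedBall p.2 (exp (-p.1)) ⊆ U),
    MeasurableSpace.comap (fun ω => h ω p) inferInstance

/-- The axioms of Gwynne and Miller for the LQG metric `H ↦ D H`. -/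
structure IsLQGMetric (ξ Q : ℝ) (D : Field → Met) : Prop where
  meas : Measurable D
  length : ∀ (Ω : Type) [MeasurableSpace Ω] (P : Measure Ω) (h : Ω → Field), IsGFFplus h P →
    ∀ᵐ ω ∂P, IsMet (Function.curry (D (h ω))) ∧ IsLen (Function.curry (D (h ω)))
  locality : ∀ (Ω : Type) [MeasurableSpace Ω] (P : Measure Ω) (h : Ω → Field), IsGFFplus h P →
    ∀ U : Set ℂ, IsOpen U → ∀ x ∈ U, ∀ y ∈ U, ∃ F : Ω → ℝ≥0∞, Measurable[sigmaOn h U] F ∧
      ∀ᵐ ω ∂P, DU (Function.curry (D (h ω))) U x y = F ω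
  weyl : ∀ (Ω : Type) [MeasurableSpace Ω] (P : Measure Ω) (h : Ω → Field), IsGFFplus h P →
    ∀ᵐ ω ∂P, ∀ (f : Fn) (x y : ℂ), ENNReal.ofReal (D (addFn (h ω) f) (x, y)) =
      wmetOn (fun z => ξ * f z) (Function.curry (D (h ω))) univ x y
  coord : ∀ (Ω : Type) [MeasurableSpace Ω] (P : Measure Ω) (h : Ω → Field), IsGFFplus h P →
    ∀ a b : ℂ, a ≠ 0 → ∀ᵐ ω ∂P, ∀ x y : ℂ,
      D (h ω) (a * x + b, a * y + b) = D (affine Q a b (h ω)) (x, y)

/-- `m` is locally finite and the vague limit of `ε ^ (γ ^ 2 / 2) exp (γ H_ε (z)) dz` along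
`ε = 2 ^ (-k)`. -/
def IsVague (γ : ℝ) (H : Field) (m : Measure ℂ) : Prop :=
  IsLocallyFiniteMeasure m ∧ ∀ φ : ℂ → ℝ, Continuous φ → HasCompactSupport φ →
    Tendsto (fun k : ℕ => ∫ z, φ z * exp (γ * H (k * log 2, z) - γ ^ 2 / 2 * (k * log 2)))
      atTop (𝓝 (∫ z, φ z ∂m))

/-- the LQG area measure `H ↦ μ H` of Duplantier and Sheffield -/
structure IsLQGMeasure (γ : ℝ) (μ : Field → Measure ℂ) : Prop where
  meas : Measurable μ
  vague : ∀ (Ω : Type) [MeasurableSpace Ω] (P : Measure Ω) (h : Ω → Field), IsGFFplus h P →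
    ∀ᵐ ω ∂P, IsVague γ (h ω) (μ (h ω))

/-- `(ℂ, d, m)` is the LQG surface of the field `h + f`, where `f` is continuous off `Z`: `d` is a
length metric inducing the Euclidean topology, whose internal metrics off `Z` are given by Weyl
scaling of `D h`, and `m = exp (γ f) μ h`. -/
structure IsSurf (γ ξ : ℝ) (D : Field → Met) (μ : Field → Measure ℂ) (Z : Set ℂ) (P : Measure Ω)
    (h : Ω → Field) (f : Ω → ℂ → ℝ) (d : Ω → Met) (m : Ω → Measure ℂ) : Prop where
  measd : Measurable d
  measm : Measurable m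
  length : ∀ᵐ ω ∂P, IsMet (Function.curry (d ω)) ∧ IsLen (Function.curry (d ω))
  weyl : ∀ᵐ ω ∂P, ∀ U : Set ℂ, IsOpen U → Disjoint U Z → ∀ x ∈ U, ∀ y ∈ U,
    DU (Function.curry (d ω)) U x y =
      wmetOn (fun z => ξ * f ω z) (Function.curry (D (h ω))) U x y
  area : ∀ᵐ ω ∂P, m ω = (μ (h ω)).withDensity fun z => ENNReal.ofReal (exp (γ * f ω z))

/-- The radial process of the `γ`-quantum cone: `b s + γ s` for `s ≥ 0`, and for `s = -t < 0` the
path `w u = c u + (Q - γ) u` after its last zero, minus `Q t`. -/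
def radial (γ Q : ℝ) (b c : ℝ≥0 → ℝ) (s : ℝ) : ℝ :=
  let T : ℝ≥0 := sSup {u | c u + (Q - γ) * u = 0}
  if 0 ≤ s then b s.toNNReal + γ * s
  else c (T + (-s).toNNReal) + (Q - γ) * (T + -s) - Q * -s

/-- `h + f` is the `γ`-quantum cone in the circle-average embedding: the circle averages of the
GFF `h` around `0` are replaced by the independent radial process. -/
def IsCone (γ Q : ℝ) (P : Measure Ω) (h : Ω → Field) (f : Ω → ℂ → ℝ) : Prop :=
  IsGFF h P ∧ (∀ᵐ ω ∂P, h ω 0 = 0) ∧
    ∃ b c : ℝ≥0 → Ω → ℝ, (∀ t, Measurable (b t)) ∧ (∀ t, Measurable (c t)) ∧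
    IsBrownianReal b P ∧ IsBrownianReal c P ∧
    IndepFun (fun ω t => b t ω) (fun ω t => c t ω) P ∧
    IndepFun (fun ω => (fun t => b t ω, fun t => c t ω)) h P ∧
    ∀ ω z, f ω z = radial γ Q (b · ω) (c · ω) (-log ‖z‖) - h ω (-log ‖z‖, 0)

/-- the logarithmic singularities of the quantum sphere marked at `0, 1, ∞` -/
def sphereFn (γ Q : ℝ) (z : ℂ) : ℝ :=
  -γ * log ‖z‖ - γ * log ‖z - 1‖ + (3 * γ - 2 * Q) * log (max ‖z‖ 1)

/-- `h + f` is the unit-area quantum sphere with three marked points at `0, 1, ∞`: the law of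
`h` is that of the GFF with mean zero on the unit circle weighted by
`μ (h + sphereFn) (ℂ) ^ (4 / γ ^ 2 - 2)`, and `f` is `sphereFn` plus the constant that makes the
total area one. -/
def IsSphere (γ Q : ℝ) (μ : Field → Measure ℂ) (P : Measure Ω) (h : Ω → Field)
    (f : Ω → ℂ → ℝ) : Prop :=
  let area : Field → ℝ≥0∞ := fun H => ∫⁻ z, ENNReal.ofReal (exp (γ * sphereFn γ Q z)) ∂μ H
  Measurable h ∧
    (∃ (ν : Measure Field) (c : ℝ≥0), IsGFF id ν ∧ (∀ᵐ H ∂ν, H 0 = 0) ∧
      P.map h = ν.withDensity fun H => c * area H ^ (4 / γ ^ 2 - 2)) ∧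
    ∀ ω z, f ω z = sphereFn γ Q z - log (area (h ω)).toReal / γ

/-- Given the surface `(d, m)`, `Y` is a Poisson point process of intensity `l • m`: the numbers
of points in disjoint bounded Borel sets are independent Poisson variables. -/
def IsPPP (P : Measure Ω) (d : Ω → Met) (m : Ω → Measure ℂ) (l : ℝ≥0) (Y : Ω → Set ℂ) : Prop :=
  ∀ (k : ℕ) (A : Fin k → Set ℂ) (n : Fin k → ℕ) (E : Set (Met × Measure ℂ)),
    (∀ i, MeasurableSet (A i)) → (∀ i, Bornology.IsBounded (A i)) →
    Pairwise (Function.onFun Disjoint A) → MeasurableSet E →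
    MeasurableSet {ω | ∀ i, (Y ω ∩ A i).encard = n i} ∧
    P ({ω | (d ω, m ω) ∈ E} ∩ {ω | ∀ i, (Y ω ∩ A i).encard = n i}) =
      ∫⁻ ω in {ω | (d ω, m ω) ∈ E}, ∏ i, poissonMeasure (l * (m ω (A i)).toNNReal) {n i} ∂P

end Pool.Agent.Lib.MP_0d9445_pr
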