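import Pool.Agent.Lib.MP_0d9445_pr.Layers
import Pool.Agent.Lib.MP_0d9445_pr.PPP.Basic
import Pool.Agent.Lib.MP_0d9445_pr.PPP.Super
import Pool.Agent.Lib.MP_0d9445_pr.PPP.Restrict

/-! The engine: configurations, local sigma-algebras, kernels, points, blocking (definitions). -/

open MeasureTheory ProbabilityTheory Set Filter Topology Real LQ.Met
open scoped NNReal ENNReal

noncomputable section

namespace Pool.Agent.Lib.MP_0d9445_pr

open CR PPP

/-- a configuration: a metric and a measure -/
abbrev Cf : Type := Met × Measure ℂ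

/-- a square: centre and half side -/
abbrev Sq : Type := ℂ × ℝ

/-- the open square -/
abbrev Sq.o (w : Sq) : Set ℂ := osq w.1 w.2

/-- the closed square -/
abbrev Sq.c (w : Sq) : Set ℂ := csq w.1 w.2

theorem isOpen_osq (y : ℂ) (r : ℝ) : IsOpen (osq y r) :=
  (isOpen_lt (f := fun z : ℂ => |z.re - y.re|) (by fun_prop) continuous_const).inter
    (isOpen_lt (f := fun z : ℂ => |z.im - y.im|) (by fun_prop) continuous_const)

theorem isClosed_csq (y : ℂ) (r : ℝ) : IsClosed (csq y r) :=
  (isClosed_le (f := fun z : ℂ => |z.re - y.re|) (by fun_prop) continuous_const).inter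
    (isClosed_le (f := fun z : ℂ => |z.im - y.im|) (by fun_prop) continuous_const)

theorem isBounded_csq (y : ℂ) (r : ℝ) : Bornology.IsBounded (csq y r) := by
  refine (Metric.isBounded_closedBall (x := y) (r := 2 * r)).subset fun z hz => ?_
  rw [mem_closedBall_iff_norm]
  have h := Complex.norm_le_abs_re_add_abs_im (z - y)
  rw [Complex.sub_re, Complex.sub_im] at h
  linarith [hz.1, hz.2]

theorem osq_subset_csq (y : ℂ) (r : ℝ) : osq y r ⊆ csq y r := fun _ h => ⟨h.1.le, h.2.le⟩

theorem isCompact_csq (y : ℂ) (r : ℝ) : IsCompact (csq y r) :=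
  Metric.isCompact_of_isClosed_isBounded (isClosed_csq y r) (isBounded_csq y r)

theorem isCompact_frontier_osq (y : ℂ) (r : ℝ) : IsCompact (frontier (osq y r)) :=
  (isCompact_csq y r).of_isClosed_subset isClosed_frontier
    (frontier_subset_closure.trans (closure_minimal (osq_subset_csq y r) (isClosed_csq y r)))

/-- projection on the closed square -/
def proj (w : Sq) (z : ℂ) : ℂ :=
  ⟨max (w.1.re - w.2) (min (w.1.re + w.2) z.re), max (w.1.im - w.2) (min (w.1.im + w.2) z.im)⟩

theorem continuous_proj (w : Sq) : Continuous (proj w) := by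
  have : proj w = fun z => ((max (w.1.re - w.2) (min (w.1.re + w.2) z.re) : ℝ) : ℂ) +
      ((max (w.1.im - w.2) (min (w.1.im + w.2) z.im) : ℝ) : ℂ) * Complex.I := by
    funext z
    exact (Complex.mk_eq_add_mul_I _ _)
  rw [this]
  fun_prop

/-- the local part of a metric in the square `w`; it is `TU d w.o` for a length metric -/
def T (w : Sq) (d : Met) : Met :=
  ⟨fun p => min (d (proj w p.1, proj w p.2))
      (sInf ((fun u => d (proj w p.1, u)) '' frontier w.o)), by
    have hp := continuous_proj w
    refine Continuous.min (by fun_prop) ?_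
    exact (isCompact_frontier_osq w.1 w.2).continuous_sInf
      (f := fun (p : ℂ × ℂ) (u : ℂ) => d (proj w p.1, u)) (by fun_prop)⟩

/-- the local data of a configuration in the square `w` -/
def loc (w : Sq) (c : Cf) : Cf := (T w c.1, c.2.restrict w.o)

/-- the sigma-algebra of the local data inside `A` -/
@[reducible] def GG (A : Set ℂ) : MeasurableSpace Cf :=
  ⨆ (w : Sq) (_ : w.o ⊆ A), MeasurableSpace.comap (loc w) inferInstance

/-- the configuration seen through `z ↦ a z + b` -/
def pull (a b : ℂ) (c : Cf) : Cf :=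
  (c.1.comp ⟨fun p => (a * p.1 + b, a * p.2 + b), by fun_prop⟩, c.2.map fun z => (z - b) / a)

/-- the effect of adding the constant `t` to the field -/
def scale (ξ γ t : ℝ) (c : Cf) : Cf := (exp (ξ * t) • c.1, ENNReal.ofReal (exp (γ * t)) • c.2)

/-- a configuration whose metric is a length metric inducing the topology -/
def IsGood (c : Cf) : Prop := IsMet (Function.curry c.1) ∧ IsLen (Function.curry c.1)

/-- `c₁` is `M`-close to `c₂` in the square `W` -/
def Close (ξ γ M : ℝ) (W : Sq) (c₁ c₂ : Cf) : Prop :=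
  (∃ κ : ℝ, 0 < κ ∧ ∀ w : Sq, w.o ⊆ W.o → ∀ p,
    κ * exp (-(ξ * M)) * T w c₂.1 p ≤ T w c₁.1 p ∧ T w c₁.1 p ≤ κ * exp (ξ * M) * T w c₂.1 p) ∧
  ENNReal.ofReal (exp (-(γ * M))) • c₂.2.restrict W.o ≤ c₁.2.restrict W.o ∧
  c₁.2.restrict W.o ≤ ENNReal.ofReal (exp (γ * M)) • c₂.2.restrict W.o

/-! ## Points -/

/-- finite tuples of points -/
abbrev Tup : Type := PPP.Conf ℂ

/-- configuration, the points `Π⁻`, the additional points -/
abbrev Xi : Type := Cf × Tup × Tup

open Classical in
/-- the intensity `a μ` in the window, cut off when it is infinite -/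
def inten (a : ℝ) (W : Sq) (c : Cf) : Measure ℂ :=
  if c.2 W.o < ∞ then ENNReal.ofReal a • c.2.restrict W.o else 0

instance (a : ℝ) (W : Sq) (c : Cf) : IsFiniteMeasure (inten a W c) := by
  unfold inten
  split_ifs with h
  · refine ⟨?_⟩
    rw [Measure.smul_apply, Measure.restrict_apply_univ, smul_eq_mul]
    exact ENNReal.mul_lt_top ENNReal.ofReal_lt_top h
  · infer_instance

theorem measurable_inten (a : ℝ) (W : Sq) : Measurable (inten a W) := by
  have hW := (isOpen_osq W.1 W.2).measurableSet
  refine Measurable.ite (measurableSet_lt ((Measure.measurable_coe hW).comp measurable_snd)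
    measurable_const) (Measure.measurable_of_measurable_coe _ fun S hS => ?_) measurable_const
  simp only [Measure.smul_apply, Measure.restrict_apply hS, smul_eq_mul]
  exact ((Measure.measurable_coe (hS.inter hW)).comp measurable_snd).const_mul _

/-- Poisson points of intensity `a μ` in the window -/
def ptK (a : ℝ) (W : Sq) : Kernel Cf Tup :=
  pppK (inten a W) (measurable_inten a W) fun _ => inferInstance

instance (a : ℝ) (W : Sq) : IsMarkovKernel (ptK a W) := by
  unfold ptK
  infer_instance

/-- the two independent point processes of intensities `exp (-γ M) μ` and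
`(exp (γ M) - exp (-γ M)) μ` -/
def pt2K (γ M : ℝ) (W : Sq) : Kernel Cf (Tup × Tup) :=
  ptK (exp (-(γ * M))) W ×ₖ ptK (exp (γ * M) - exp (-(γ * M))) W

instance (γ M : ℝ) (W : Sq) : IsMarkovKernel (pt2K γ M W) := by
  unfold pt2K
  infer_instance

/-- the events determined by the local data and the points inside `A` -/
@[reducible] def GGhat (A : Set ℂ) : MeasurableSpace Xi where
  MeasurableSet' S := MeasurableSet[(GG A).prod inferInstance] S ∧
    ∀ (c : Cf) (x y x' y' : Tup), pts x ∩ interior A = pts x' ∩ interior A →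
      pts y ∩ interior A = pts y' ∩ interior A → ((c, x, y) ∈ S ↔ (c, x', y') ∈ S)
  measurableSet_empty := ⟨@MeasurableSet.empty _ ((GG A).prod inferInstance), by simp⟩
  measurableSet_compl S hS := ⟨hS.1.compl, fun c x y x' y' h1 h2 =>
    not_congr (hS.2 c x y x' y' h1 h2)⟩
  measurableSet_iUnion f hf := ⟨MeasurableSet.iUnion fun i => (hf i).1, fun c x y x' y' h1 h2 => by
    simp only [mem_iUnion]
    exact exists_congr fun i => (hf i).2 c x y x' y' h1 h2⟩

/-- configuration and points seen through `z ↦ a z + b`, in the window `W` -/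
def pullX (W : Sq) (a b : ℂ) (x : Xi) : Xi :=
  (pull a b x.1, filt W.o (cmap (fun z => (z - b) / a) x.2.1),
    filt W.o (cmap (fun z => (z - b) / a) x.2.2))

/-- every point of the square `csq u (r / 2)` has a point of `Y` much closer than the boundary of
`osq u r` -/
def blk (lam : ℝ) (u : ℂ) (r : ℝ) (d : Met) (Y : Set ℂ) : Prop :=
  ∀ w ∈ csq u (r / 2), ∃ x ∈ Y ∩ osq u r, lam * T (u, r) d (w, x) ≤ T (u, r) d (w, u + r) / 2

/-- the boundary of `8 S` is blocked, `S` the dyadic box of level `n` and index `v` -/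
def Blk (lam : ℝ) (n : ℕ) (v : ℤ × ℤ) (d : Met) (Y : Set ℂ) : Prop :=
  ∀ j : ℤ × ℤ, max |j.1| |j.2| = 8 →
    blk lam (ctr n v + (sc n / 2 : ℝ) * (j.1 + j.2 * Complex.I)) (sc n / 2) d Y

/-- the pattern of a metric `d`, blocking points `Y` and counted points `Y'` -/
def mkPat (W : Sq) (lam : ℝ) (d : Met) (Y Y' : Set ℂ) : Pat :=
  ⟨fun n v => reg n v 5 ⊆ W.o ∧ Blk lam n v d Y, Y'⟩

/-- the pattern at distortion `M` -/
def pat (ξ M : ℝ) (W : Sq) (x : Xi) : Pat :=
  mkPat W (exp (2 * ξ * M)) x.1.1 (pts x.2.1) (pts x.2.1 ∪ pts x.2.2)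

/-- probability, given the configuration, that the pattern at distortion `M` is in `E` -/
def Theta (ξ γ M : ℝ) (W : Sq) (E : Set Pat) (c : Cf) : ℝ≥0∞ :=
  pt2K γ M W c {y | pat ξ M W (c, y) ∈ E}

/-! ## The model -/

/-- layers, LQG metric and LQG measure -/
structure Model extends Layers where
  γ : ℝ
  ξ : ℝ
  γ_pos : 0 < γ
  γ_lt : γ < 2
  ξ_pos : 0 < ξ
  D : Field → Met
  μ : Field → Measure ℂ
  hD : IsLQGMetric ξ (2 / γ + γ / 2) D
  hμ : IsLQGMeasure γ μ

theorem continuous_addFn : Continuous fun p : Field × Fn => addFn p.1 p.2 := by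
  refine continuous_fst.add (ContinuousMap.continuous_of_continuous_uncurry _ ?_)
  have : Continuous fun q : (Field × Fn) × (ℝ × ℂ) =>
      ∫ θ in (0 : ℝ)..2 * π, q.1.2 (circleMap q.2.2 (exp (-q.2.1)) θ) := by
    unfold circleMap
    exact intervalIntegral.continuous_parametric_intervalIntegral_of_continuous' (by fun_prop) _ _
  exact this.const_smul (2 * π)⁻¹

theorem measurable_addFn : Measurable fun p : Field × Fn => addFn p.1 p.2 :=
  continuous_addFn.measurable

namespace Model

variable (M : Model)

/-- the constant `Q` -/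
def Q : ℝ := 2 / M.γ + M.γ / 2

/-- the configuration of a field -/
def conf (H : Field) : Cf := (M.D H, M.μ H)

theorem measurable_conf : Measurable M.conf := M.hD.meas.prodMk M.hμ.meas

theorem measurable_conf_add (n : ℤ) :
    Measurable fun p : Fn × M.Ω => M.conf (addFn (M.H n p.2) p.1) :=
  M.measurable_conf.comp (measurable_addFn.comp
    (((M.meas_H n).comp measurable_snd).prodMk measurable_fst))

/-- the law of the configuration of `H n + g` -/
def Pk (n : ℤ) : Kernel Fn Cf where
  toFun g := M.P.map fun ω => M.conf (addFn (M.H n ω) g)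
  measurable' := by
    refine Measure.measurable_of_measurable_coe _ fun S hS => ?_
    have h := M.measurable_conf_add n
    have : (fun g : Fn => M.P.map (fun ω => M.conf (addFn (M.H n ω) g)) S) = fun g =>
        M.P (Prod.mk g ⁻¹' ((fun p : Fn × M.Ω => M.conf (addFn (M.H n p.2) p.1)) ⁻¹' S)) := by
      funext g
      exact Measure.map_apply (h.comp measurable_prodMk_left) hS
    rw [this]
    exact measurable_measure_prodMk_left (h hS)

theorem Pk_apply (n : ℤ) (g : Fn) :
    M.Pk n g = M.P.map fun ω => M.conf (addFn (M.H n ω) g) := rfl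

instance (n : ℤ) : IsMarkovKernel (M.Pk n) :=
  ⟨fun _ => Measure.isProbabilityMeasure_map
    ((M.measurable_conf_add n).comp measurable_prodMk_left).aemeasurable⟩

/-- the law of the layer `n` -/
def ν (n : ℤ) : Measure Fn := M.P.map (M.eta n)

/-- the law of the sum of the layers `n, …, n + m - 1` -/
def lay (n : ℤ) (m : ℕ) : Measure Fn := M.P.map fun ω => ∑ i ∈ Finset.range m, M.eta (n + i) ω

/-- the law of the infrared part -/
def Ginf : Measure Fn := M.P.map M.ginf

/-- the law of the configuration of `H n + g` and of the points, at distortion `L`, in the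
window `W` -/
def Phat (L : ℝ) (W : Sq) (n : ℤ) : Kernel Fn Xi :=
  M.Pk n ⊗ₖ Kernel.prodMkLeft Fn (pt2K M.γ L W)

instance (L : ℝ) (W : Sq) (n : ℤ) : IsMarkovKernel (M.Phat L W n) := by
  unfold Phat
  infer_instance

/-- the reference law of the configuration: `ginf + G + H 0`, `G` a standard Gaussian -/
def ref : Measure Cf :=
  (M.Ginf.prod (gaussianReal 0 1)).bind fun p => M.Pk 0 (p.1 + cst p.2)

/-- the model GFF with average zero on the unit circle -/
def hat (ω : M.Ω) : Field :=
  addFn (addFn (M.H 0 ω) (M.ginf ω)) (cst (-(addFn (M.H 0 ω) (M.ginf ω)) 0))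

/-- the law of the configuration of the GFF with average zero on the unit circle -/
def ref0 : Measure Cf := M.P.map fun ω => M.conf (M.hat ω)

end Model

end Pool.Agent.Lib.MP_0d9445_pr
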